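import Pool.Agent.Helper51.CP.Defs

/-! # Module G7: the final contradiction -/

set_option autoImplicit false

namespace Pool.Agent.Helper99.CP

open Complex MeasureTheory Set Pool.Agent.Helper51.CP Pool.Agent.Helper51.CP.CPoly
open scoped BoundedContinuousFunction

/-! ### Real inequalities -/

theorem G7_gauss (s : ℝ) : Real.exp (-s ^ 2) * (2 + 2 * s ^ 2) ≤ 2 := by
  have h := Real.add_one_le_exp (s ^ 2)
  have h1 : Real.exp (-s ^ 2) * Real.exp (s ^ 2) = 1 := by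
    rw [← Real.exp_add]; simp
  have h2 := Real.exp_pos (-s ^ 2)
  nlinarith

theorem G7_exp1 : Real.exp 3.6 ≤ 40 := by
  have h1 : Real.exp 3.6 * Real.exp 0.4 = Real.exp 1 ^ 4 := by
    rw [← Real.exp_add, ← Real.exp_nat_mul]
    norm_num
  have h2 := Real.exp_one_lt_d9
  have h3 : Real.exp 1 ^ 4 ≤ 2.7182818286 ^ 4 :=
    pow_le_pow_left₀ (Real.exp_pos 1).le h2.le 4
  have h4 := Real.add_one_le_exp (0.4 : ℝ)
  have h5 := Real.exp_pos (3.6 : ℝ)
  nlinarith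

theorem G7_exp2 : Real.exp (-2.4) ≤ 1 / 10 := by
  have h1 : Real.exp 2.4 = Real.exp 1 ^ 2 * Real.exp 0.4 := by
    rw [← Real.exp_nat_mul, ← Real.exp_add]
    norm_num
  have h2 := Real.exp_one_gt_d9
  have h3 : (2.7182818283 : ℝ) ^ 2 ≤ Real.exp 1 ^ 2 :=
    pow_le_pow_left₀ (by norm_num) h2.le 2
  have h4 := Real.add_one_le_exp (0.4 : ℝ)
  have h5 : 10 ≤ Real.exp 2.4 := by
    rw [h1]
    nlinarith [Real.exp_pos (1 : ℝ)]
  have h6 : Real.exp (-2.4) * Real.exp 2.4 = 1 := by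
    rw [← Real.exp_add]; norm_num
  have h7 := Real.exp_pos (-2.4 : ℝ)
  nlinarith

theorem G7_poly1 {X : ℝ} (hX : 6 < X) :
    (X + 0.9) ^ 2 + (1.0081 + 0.0064 * X) ^ 2 ≤ 1.4 * X ^ 2 := by
  nlinarith

theorem G7_poly2 {X : ℝ} (hX : 6 < X) :
    X ^ 2 + (1.0001 + 0.0064 * X) ^ 2 ≤ 1.4 * X ^ 2 := by
  nlinarith

theorem G7_poly3 {X : ℝ} (hX : 6 < X) :
    (0.5051 + 0.0064 * X) ^ 2 + 6 * (0.5051 + 0.0064 * X) ≤ (X - 0.45) ^ 2 - 0.75 * X ^ 2 := by
  nlinarith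

/-- decay far away -/
theorem G7_far {s t x0 y0 e : ℝ} (hx1 : |x0| ≤ 0.45) (hy1 : 0.495 ≤ y0) (hy2 : y0 ≤ 0.503)
    (h1 : 0 ≤ t + y0) (h2 : t + y0 ≤ 1.0001 + 0.0064 * |s + x0|) (hX : 6 < |s + x0|)
    (he : e ≤ -s ^ 2 + t ^ 2 + 6 * |t|) :
    Real.exp e * ((s + x0) ^ 2 + (t + y0) ^ 2) ≤ 0.016 ∧
      Real.exp e * ((s - x0) ^ 2 + (t - y0) ^ 2) ≤ 0.016 := by
  obtain ⟨X, hXd⟩ : ∃ X, X = |s + x0| := ⟨_, rfl⟩
  rw [← hXd] at h2 hX
  have hX2 : (s + x0) ^ 2 = X ^ 2 := by rw [hXd, sq_abs]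
  obtain ⟨hx2, hx3⟩ := abs_le.mp hx1
  have ht : |t| ≤ 0.5051 + 0.0064 * X := by
    rw [abs_le]
    constructor <;> linarith
  have hs : X - 0.45 ≤ |s| := by
    have h3 := abs_add_le s x0
    rw [← hXd] at h3
    linarith
  have hs2 : (X - 0.45) ^ 2 ≤ s ^ 2 := by
    rw [← sq_abs s]
    exact pow_le_pow_left₀ (by linarith) hs 2
  have ht2 : t ^ 2 ≤ (0.5051 + 0.0064 * X) ^ 2 := by
    rw [← sq_abs t]
    exact pow_le_pow_left₀ (abs_nonneg t) ht 2
  have he' : e ≤ -(0.75 * X ^ 2) := by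
    have := G7_poly3 hX
    linarith
  have hu : (27 : ℝ) ≤ 0.75 * X ^ 2 := by
    have : (6 : ℝ) ^ 2 ≤ X ^ 2 := pow_le_pow_left₀ (by norm_num) hX.le 2
    linarith
  have hexp := Real.pow_div_factorial_le_exp (0.75 * X ^ 2) (by linarith) 3
  have hf : ((Nat.factorial 3 : ℕ) : ℝ) = 6 := by norm_num [Nat.factorial]
  rw [hf] at hexp
  have hE : Real.exp e * Real.exp (0.75 * X ^ 2) ≤ 1 := by
    rw [← Real.exp_add]
    rw [← Real.exp_zero]
    exact Real.exp_le_exp.mpr (by linarith)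
  have hE0 := Real.exp_pos e
  -- `E * X ^ 2 ≤ 0.011`
  have key : Real.exp e * X ^ 2 ≤ 0.011 := by
    obtain ⟨u, hu'⟩ : ∃ u, u = 0.75 * X ^ 2 := ⟨_, rfl⟩
    rw [← hu'] at hexp hE hu
    have h3 : Real.exp e * u ^ 3 ≤ 6 := by
      have h4 : Real.exp e * (u ^ 3 / 6) ≤ Real.exp e * Real.exp u :=
        mul_le_mul_of_nonneg_left hexp hE0.le
      linarith
    have h5 : (27 : ℝ) ^ 2 ≤ u ^ 2 := pow_le_pow_left₀ (by norm_num) hu 2
    have h6 : Real.exp e * u * (27 : ℝ) ^ 2 ≤ Real.exp e * u * u ^ 2 :=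
      mul_le_mul_of_nonneg_left h5 (by positivity)
    have h7 : Real.exp e * u * u ^ 2 = Real.exp e * u ^ 3 := by ring
    have h8 : X ^ 2 = u * (4 / 3) := by rw [hu']; ring
    rw [h8]
    nlinarith
  have hg1 : (s + x0) ^ 2 + (t + y0) ^ 2 ≤ 1.4 * X ^ 2 := by
    rw [hX2]
    have h3 : (t + y0) ^ 2 ≤ (1.0001 + 0.0064 * X) ^ 2 := pow_le_pow_left₀ h1 h2 2
    have := G7_poly2 hX
    linarith
  have hg2 : (s - x0) ^ 2 + (t - y0) ^ 2 ≤ 1.4 * X ^ 2 := by
    have h3 : |s - x0| ≤ X + 0.9 := by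
      have h4 : s - x0 = (s + x0) + (-(2 * x0)) := by ring
      have h5 : |-(2 * x0)| ≤ 0.9 := by
        rw [abs_neg, abs_le]
        constructor <;> linarith
      have h6 := abs_add_le (s + x0) (-(2 * x0))
      rw [← h4, ← hXd] at h6
      linarith
    have h4 : (s - x0) ^ 2 ≤ (X + 0.9) ^ 2 := by
      rw [← sq_abs]
      exact pow_le_pow_left₀ (abs_nonneg _) h3 2
    have h5 : |t - y0| ≤ 1.0081 + 0.0064 * X := by
      rw [abs_le]
      constructor <;> linarith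
    have h6 : (t - y0) ^ 2 ≤ (1.0081 + 0.0064 * X) ^ 2 := by
      rw [← sq_abs]
      exact pow_le_pow_left₀ (abs_nonneg _) h5 2
    have := G7_poly1 hX
    linarith
  constructor
  · calc Real.exp e * ((s + x0) ^ 2 + (t + y0) ^ 2) ≤ Real.exp e * (1.4 * X ^ 2) :=
        mul_le_mul_of_nonneg_left hg1 hE0.le
      _ = 1.4 * (Real.exp e * X ^ 2) := by ring
      _ ≤ 0.016 := by linarith
  · calc Real.exp e * ((s - x0) ^ 2 + (t - y0) ^ 2) ≤ Real.exp e * (1.4 * X ^ 2) :=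
        mul_le_mul_of_nonneg_left hg2 hE0.le
      _ = 1.4 * (Real.exp e * X ^ 2) := by ring
      _ ≤ 0.016 := by linarith

/-- near the centre, both squared distances are at most `2 + 2 s ^ 2` -/
theorem G7_near {s t x0 y0 e M : ℝ} (hx1 : |x0| ≤ 0.45) (hy1 : 0.495 ≤ y0) (hy2 : y0 ≤ 0.503)
    (h1 : 0 ≤ t + y0) (h2 : t + y0 ≤ 1.0385) (he : e ≤ -s ^ 2 + M) :
    Real.exp e * ((s + x0) ^ 2 + (t + y0) ^ 2) ≤ 2 * Real.exp M ∧
      Real.exp e * ((s - x0) ^ 2 + (t - y0) ^ 2) ≤ 2 * Real.exp M := by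
  obtain ⟨hx2, hx3⟩ := abs_le.mp hx1
  have hE : Real.exp e ≤ Real.exp M * Real.exp (-s ^ 2) := by
    rw [← Real.exp_add]
    exact Real.exp_le_exp.mpr (by linarith)
  have hM := Real.exp_pos M
  have hx4 : x0 ^ 2 ≤ 0.2025 := by nlinarith
  have hg1 : (s + x0) ^ 2 + (t + y0) ^ 2 ≤ 2 + 2 * s ^ 2 := by
    nlinarith [sq_nonneg (s - x0)]
  have hg2 : (s - x0) ^ 2 + (t - y0) ^ 2 ≤ 2 + 2 * s ^ 2 := by
    have h3 : (t - y0) ^ 2 ≤ 1.03 := by nlinarith
    nlinarith [sq_nonneg (s + x0)]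
  have hG := G7_gauss s
  have hkey : Real.exp M * Real.exp (-s ^ 2) * (2 + 2 * s ^ 2) ≤ 2 * Real.exp M := by
    nlinarith
  have h4 : ∀ p : ℝ, 0 ≤ p → p ≤ 2 + 2 * s ^ 2 → Real.exp e * p ≤ 2 * Real.exp M := by
    intro p hp0 hp
    calc Real.exp e * p ≤ (Real.exp M * Real.exp (-s ^ 2)) * p :=
          mul_le_mul_of_nonneg_right hE hp0
      _ ≤ (Real.exp M * Real.exp (-s ^ 2)) * (2 + 2 * s ^ 2) :=
          mul_le_mul_of_nonneg_left hp (by positivity)
      _ ≤ 2 * Real.exp M := hkey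
  exact ⟨h4 _ (by positivity) hg1, h4 _ (by positivity) hg2⟩

theorem G7_step {E D L k G c P : ℝ} (hE : 0 ≤ E) (hD : 0 ≤ D) (hk : 0 ≤ k)
    (h : D * L = Real.pi * (k * G)) (hc : c ≤ L) (hP : E * G ≤ P) :
    c * (E * D) ≤ Real.pi * (k * P) := by
  have hpi := Real.pi_pos
  calc c * (E * D) ≤ L * (E * D) := mul_le_mul_of_nonneg_right hc (by positivity)
    _ = E * (D * L) := by ring
    _ = Real.pi * (k * (E * G)) := by rw [h]; ring
    _ ≤ Real.pi * (k * P) := by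
      apply mul_le_mul_of_nonneg_left _ hpi.le
      exact mul_le_mul_of_nonneg_left hP hk

theorem G7_pt {s t x0 y0 D L0 Lb Lz k0 kb F : ℝ} (hx1 : |x0| ≤ 0.45) (hy1 : 0.495 ≤ y0)
    (hy2 : y0 ≤ 0.503) (h1 : 0 ≤ t + y0) (h2 : t + y0 ≤ 1.0001 + 0.0064 * |s + x0|)
    (hD : 0 ≤ D) (hk0 : 0 ≤ k0) (hkb : 0 ≤ kb)
    (e0 : D * L0 = Real.pi * (k0 * ((s + x0) ^ 2 + (t + y0) ^ 2)))
    (eb : D * Lb = Real.pi * (kb * ((s - x0) ^ 2 + (t - y0) ^ 2)))
    (ez : 2 * Lz = L0 + Lb) (hz : 0.47 ≤ Lz)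
    (hc : |s + x0| ≤ 6 → (0.996 - 0.0063 * |s + x0| ≤ t + y0 ∧ 0.77 ≤ L0) ∨
      (t + y0 ≤ 0.0096 * |s + x0| ∧ 0.72 ≤ Lb))
    (hF0 : 0 ≤ F) (hF2 : F ≤ 2) :
    F * (Real.exp (-s ^ 2 + t ^ 2 + 6 * t) * D) ≤
        0.94 * Real.pi * (120 * (F * k0) + 0.6 * kb + 0.04 * (k0 + kb)) ∧
      F * (Real.exp (-s ^ 2 + t ^ 2 - 6 * t) * D) ≤
        0.94 * Real.pi * (120 * (F * kb) + 0.6 * k0 + 0.04 * (k0 + kb)) := by
  have hpi := Real.pi_pos
  have hE1 := (Real.exp_pos (-s ^ 2 + t ^ 2 + 6 * t)).le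
  have hE2 := (Real.exp_pos (-s ^ 2 + t ^ 2 - 6 * t)).le
  have hFk0 : 0 ≤ Real.pi * (F * k0) := by positivity
  have hFkb : 0 ≤ Real.pi * (F * kb) := by positivity
  have hpk0 : 0 ≤ Real.pi * k0 := by positivity
  have hpkb : 0 ≤ Real.pi * kb := by positivity
  have r1 : 0.94 * Real.pi * (120 * (F * k0) + 0.6 * kb + 0.04 * (k0 + kb)) =
      112.8 * (Real.pi * (F * k0)) + 0.6016 * (Real.pi * kb) + 0.0376 * (Real.pi * k0) := by ring
  have r2 : 0.94 * Real.pi * (120 * (F * kb) + 0.6 * k0 + 0.04 * (k0 + kb)) =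
      112.8 * (Real.pi * (F * kb)) + 0.6016 * (Real.pi * k0) + 0.0376 * (Real.pi * kb) := by ring
  rw [r1, r2]
  by_cases hX : |s + x0| ≤ 6
  · have h3 : t + y0 ≤ 1.0385 := by linarith
    have t1 : t ≤ 0.5435 := by linarith
    have t2 : -0.503 ≤ t := by linarith
    have b1 : t ^ 2 + 6 * t ≤ 3.6 := by nlinarith only [t1, t2]
    have b2 : t ^ 2 - 6 * t ≤ 3.6 := by nlinarith only [t1, t2]
    have n1 := G7_near (s := s) (e := -s ^ 2 + t ^ 2 + 6 * t) (M := 3.6) hx1 hy1 hy2 h1 h3 (by linarith)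
    have n2 := G7_near (s := s) (e := -s ^ 2 + t ^ 2 - 6 * t) (M := 3.6) hx1 hy1 hy2 h1 h3 (by linarith)
    have x1 := G7_exp1
    have x2 := G7_exp2
    rcases hc hX with ⟨h4, h5⟩ | ⟨h4, h5⟩
    · have t3 : 0.455 ≤ t := by linarith
      have b3 : t ^ 2 - 6 * t ≤ -2.4 := by nlinarith only [t1, t3]
      have n3 := G7_near (s := s) (e := -s ^ 2 + t ^ 2 - 6 * t) (M := -2.4) hx1 hy1 hy2 h1 h3
        (by linarith)
      have c1 := G7_step hE1 hD hk0 e0 h5 (n1.1.trans (by linarith : _ ≤ (80 : ℝ)))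
      have c2 := G7_step hE2 hD hk0 e0 h5 (n3.1.trans (by linarith : _ ≤ (0.2 : ℝ)))
      constructor
      · have c3 := mul_le_mul_of_nonneg_left c1 hF0
        have q1 : F * (0.77 * (Real.exp (-s ^ 2 + t ^ 2 + 6 * t) * D)) =
          0.77 * (F * (Real.exp (-s ^ 2 + t ^ 2 + 6 * t) * D)) := by ring
        have q2 : F * (Real.pi * (k0 * 80)) = 80 * (Real.pi * (F * k0)) := by ring
        rw [q1, q2] at c3
        linarith
      · have c3 : F * (Real.exp (-s ^ 2 + t ^ 2 - 6 * t) * D) ≤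
            2 * (Real.exp (-s ^ 2 + t ^ 2 - 6 * t) * D) :=
          mul_le_mul_of_nonneg_right hF2 (by positivity)
        have q2 : Real.pi * (k0 * 0.2) = 0.2 * (Real.pi * k0) := by ring
        rw [q2] at c2
        linarith
    · have t3 : t ≤ -0.437 := by linarith
      have b3 : t ^ 2 + 6 * t ≤ -2.4 := by nlinarith only [t2, t3]
      have n3 := G7_near (s := s) (e := -s ^ 2 + t ^ 2 + 6 * t) (M := -2.4) hx1 hy1 hy2 h1 h3
        (by linarith)
      have c1 := G7_step hE1 hD hkb eb h5 (n3.2.trans (by linarith : _ ≤ (0.2 : ℝ)))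
      have c2 := G7_step hE2 hD hkb eb h5 (n2.2.trans (by linarith : _ ≤ (80 : ℝ)))
      constructor
      · have c3 : F * (Real.exp (-s ^ 2 + t ^ 2 + 6 * t) * D) ≤
            2 * (Real.exp (-s ^ 2 + t ^ 2 + 6 * t) * D) :=
          mul_le_mul_of_nonneg_right hF2 (by positivity)
        have q2 : Real.pi * (kb * 0.2) = 0.2 * (Real.pi * kb) := by ring
        rw [q2] at c1
        linarith
      · have c3 := mul_le_mul_of_nonneg_left c2 hF0
        have q1 : F * (0.72 * (Real.exp (-s ^ 2 + t ^ 2 - 6 * t) * D)) =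
          0.72 * (F * (Real.exp (-s ^ 2 + t ^ 2 - 6 * t) * D)) := by ring
        have q2 : F * (Real.pi * (kb * 80)) = 80 * (Real.pi * (F * kb)) := by ring
        rw [q1, q2] at c3
        linarith
  · rw [not_le] at hX
    have f1 := G7_far (e := -s ^ 2 + t ^ 2 + 6 * t) hx1 hy1 hy2 h1 h2 hX
      (by linarith [le_abs_self t])
    have f2 := G7_far (e := -s ^ 2 + t ^ 2 - 6 * t) hx1 hy1 hy2 h1 h2 hX
      (by linarith [neg_abs_le t])
    have key : ∀ E : ℝ, 0 ≤ E → E * ((s + x0) ^ 2 + (t + y0) ^ 2) ≤ 0.016 →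
        E * ((s - x0) ^ 2 + (t - y0) ^ 2) ≤ 0.016 →
        F * (E * D) ≤ 0.0376 * (Real.pi * k0) + 0.0376 * (Real.pi * kb) := by
      intro E hE g1 g2
      have d1 : F * (E * D) ≤ 2 * (E * D) := mul_le_mul_of_nonneg_right hF2 (by positivity)
      have d2 : 0.94 * (E * D) ≤ (L0 + Lb) * (E * D) :=
        mul_le_mul_of_nonneg_right (by linarith) (by positivity)
      have d3 : (L0 + Lb) * (E * D) = Real.pi * (k0 * (E * ((s + x0) ^ 2 + (t + y0) ^ 2))) +
          Real.pi * (kb * (E * ((s - x0) ^ 2 + (t - y0) ^ 2))) := by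
        have : (L0 + Lb) * (E * D) = E * (D * L0) + E * (D * Lb) := by ring
        rw [this, e0, eb]
        ring
      have d4 : Real.pi * (k0 * (E * ((s + x0) ^ 2 + (t + y0) ^ 2))) ≤
          Real.pi * (k0 * 0.016) :=
        mul_le_mul_of_nonneg_left (mul_le_mul_of_nonneg_left g1 hk0) hpi.le
      have d5 : Real.pi * (kb * (E * ((s - x0) ^ 2 + (t - y0) ^ 2))) ≤
          Real.pi * (kb * 0.016) :=
        mul_le_mul_of_nonneg_left (mul_le_mul_of_nonneg_left g2 hkb) hpi.le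
      have d6 : Real.pi * (k0 * 0.016) = 0.016 * (Real.pi * k0) := by ring
      have d7 : Real.pi * (kb * 0.016) = 0.016 * (Real.pi * kb) := by ring
      rw [d3] at d2
      rw [d6] at d4
      rw [d7] at d5
      linarith
    constructor
    · have := key _ hE1 f1.1 f1.2
      linarith
    · have := key _ hE2 f2.1 f2.2
      linarith

/-! ### Kernels -/

theorem G7_crs_le (a b : ℂ) : crs a b ≤ ‖a‖ * ‖b‖ := by
  unfold crs
  refine (Complex.im_le_norm _).trans ?_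
  rw [norm_mul, Complex.norm_conj]

theorem G7_ker (lam d u : ℂ) (hlam : lam ≠ 0) (hd : d ≠ 0) :
    ‖lam * d‖ * (crs (lam * d) (-(lam * u)) / ‖lam * d‖) =
      Real.pi * (((d / u).im / Real.pi) * ((lam * u).re ^ 2 + (lam * u).im ^ 2)) := by
  have h1 : ‖lam * d‖ ≠ 0 := norm_ne_zero_iff.mpr (mul_ne_zero hlam hd)
  have hpi := Real.pi_ne_zero
  rw [mul_div_cancel₀ _ h1]
  have h2 : Real.pi * (((d / u).im / Real.pi) * ((lam * u).re ^ 2 + (lam * u).im ^ 2)) =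
      (d / u).im * ((lam * u).re ^ 2 + (lam * u).im ^ 2) := by
    field_simp
  rw [h2]
  by_cases hu : u = 0
  · subst hu
    simp [crs]
  · have h3 : (d / u).im = (d.im * u.re - d.re * u.im) / (u.re ^ 2 + u.im ^ 2) := by
      rw [Complex.div_im, Complex.normSq_apply]
      ring
    have h4 : u.re ^ 2 + u.im ^ 2 ≠ 0 := by
      have := Complex.normSq_pos.mpr hu
      rw [Complex.normSq_apply] at this
      nlinarith
    have h5 : (lam * u).re ^ 2 + (lam * u).im ^ 2 =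
        (lam.re ^ 2 + lam.im ^ 2) * (u.re ^ 2 + u.im ^ 2) := by
      rw [Complex.mul_re, Complex.mul_im]
      ring
    rw [h3, h5]
    unfold crs
    field_simp
    simp only [Complex.mul_im, Complex.mul_re, Complex.neg_im, Complex.conj_re, Complex.conj_im]
    ring

section meas

variable (P : CPoly)

theorem G7_cont_dr : Continuous P.dr := by
  unfold CPoly.dr CPoly.side
  fun_prop

theorem G7_cont_gm : Continuous P.gm := by
  unfold CPoly.gm CPoly.side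
  fun_prop

theorem G7_meas_ker (w : ℂ) : Measurable (P.ker w) := by
  unfold CPoly.ker
  have h1 : Measurable P.dr := (G7_cont_dr P).measurable
  have h2 : Measurable P.gm := (G7_cont_gm P).measurable
  exact (Complex.measurable_im.comp (h1.div (h2.sub_const w))).div_const _

theorem G7_mass {b : P.X} (h : IsProbabilityMeasure (P.Pm b)) :
    ∫⁻ x, ENNReal.ofReal (P.ker (P.gm b) x) ∂P.ds = 1 := by
  have h1 := h.measure_univ
  unfold CPoly.Pm at h1
  rw [withDensity_apply _ MeasurableSet.univ, Measure.restrict_univ] at h1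
  exact h1

theorem G7_lint {b : P.X} {F : P.X → ℝ} (hF : Measurable F) :
    ∫⁻ x, ENNReal.ofReal (F x ^ 2) ∂(P.Pm b) =
      ∫⁻ x, ENNReal.ofReal (F x ^ 2) * ENNReal.ofReal (P.ker (P.gm b) x) ∂P.ds := by
  unfold CPoly.Pm
  rw [lintegral_withDensity_eq_lintegral_mul _ (G7_meas_ker P _).ennreal_ofReal
    (hF.pow_const 2).ennreal_ofReal]
  apply lintegral_congr
  intro x
  rw [Pi.mul_apply, mul_comm]

end meas

theorem G7_int {X : Type} [MeasurableSpace X] (μ : Measure X) {h : X → ℂ} {F k1 k2 : X → ℝ}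
    (hF : Measurable F) (hk1 : Measurable k1) (hk2 : Measurable k2)
    (h1 : ∀ x, 0 ≤ k1 x) (h2 : ∀ x, 0 ≤ k2 x)
    (m1 : ∫⁻ x, ENNReal.ofReal (k1 x) ∂μ = 1) (m2 : ∫⁻ x, ENNReal.ofReal (k2 x) ∂μ = 1)
    (m3 : ∫⁻ x, ENNReal.ofReal (F x ^ 2) * ENNReal.ofReal (k1 x) ∂μ ≤
      ENNReal.ofReal (36 / 10 ^ 10))
    (hb : ∀ x, ‖h x‖ ≤ 2 * Real.pi * (120 * (F x * k1 x) + 0.6 * k2 x +
      0.04 * (k1 x + k2 x))) :
    ‖∫ x, h x ∂μ‖ ≤ 2 * Real.pi * 0.69 := by
  have hpi := Real.pi_pos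
  have e1 : ∀ x, ‖h x‖ₑ ≤ ENNReal.ofReal (2 * Real.pi * 0.046) * ENNReal.ofReal (k1 x) +
      (ENNReal.ofReal (2 * Real.pi * 0.64) * ENNReal.ofReal (k2 x) +
      ENNReal.ofReal (2 * Real.pi * 600000) *
        (ENNReal.ofReal (F x ^ 2) * ENNReal.ofReal (k1 x))) := by
    intro x
    have hx1 := h1 x
    have hx2 := h2 x
    rw [← ENNReal.ofReal_mul (by positivity), ← ENNReal.ofReal_mul (by positivity),
      ← ENNReal.ofReal_mul (by positivity), ← ENNReal.ofReal_mul (by positivity),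
      ← ENNReal.ofReal_add (by positivity) (by positivity),
      ← ENNReal.ofReal_add (by positivity) (by positivity), ← ofReal_norm]
    apply ENNReal.ofReal_le_ofReal
    refine (hb x).trans ?_
    have a1 : F x ≤ 0.00005 + 5000 * F x ^ 2 := by nlinarith [sq_nonneg (10000 * F x - 1)]
    have a2 : F x * k1 x ≤ (0.00005 + 5000 * F x ^ 2) * k1 x :=
      mul_le_mul_of_nonneg_right a1 hx1
    have a3 : 120 * (F x * k1 x) + 0.6 * k2 x + 0.04 * (k1 x + k2 x) ≤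
        0.046 * k1 x + (0.64 * k2 x + 600000 * (F x ^ 2 * k1 x)) := by
      linarith
    calc 2 * Real.pi * (120 * (F x * k1 x) + 0.6 * k2 x + 0.04 * (k1 x + k2 x))
        ≤ 2 * Real.pi * (0.046 * k1 x + (0.64 * k2 x + 600000 * (F x ^ 2 * k1 x))) :=
          mul_le_mul_of_nonneg_left a3 (by positivity)
      _ = _ := by ring
  have e2 : ‖∫ x, h x ∂μ‖ₑ ≤ ENNReal.ofReal (2 * Real.pi * 0.69) := by
    have hm3 : Measurable (fun x => ENNReal.ofReal (F x ^ 2) * ENNReal.ofReal (k1 x)) :=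
      (hF.pow_const 2).ennreal_ofReal.mul hk1.ennreal_ofReal
    refine (enorm_integral_le_lintegral_enorm _).trans ((lintegral_mono e1).trans ?_)
    rw [lintegral_add_left (hk1.ennreal_ofReal.const_mul _),
      lintegral_add_left (hk2.ennreal_ofReal.const_mul _),
      lintegral_const_mul _ hk1.ennreal_ofReal, lintegral_const_mul _ hk2.ennreal_ofReal,
      lintegral_const_mul _ hm3, m1, m2,
      mul_one, mul_one]
    calc ENNReal.ofReal (2 * Real.pi * 0.046) + (ENNReal.ofReal (2 * Real.pi * 0.64) +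
          ENNReal.ofReal (2 * Real.pi * 600000) *
          ∫⁻ x, ENNReal.ofReal (F x ^ 2) * ENNReal.ofReal (k1 x) ∂μ)
        ≤ ENNReal.ofReal (2 * Real.pi * 0.046) + (ENNReal.ofReal (2 * Real.pi * 0.64) +
          ENNReal.ofReal (2 * Real.pi * 600000) * ENNReal.ofReal (36 / 10 ^ 10)) := by
          gcongr
      _ = ENNReal.ofReal (2 * Real.pi * 0.046 + (2 * Real.pi * 0.64 +
          2 * Real.pi * 600000 * (36 / 10 ^ 10))) := by
          rw [← ENNReal.ofReal_mul (by positivity),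
            ← ENNReal.ofReal_add (by positivity) (by positivity),
            ← ENNReal.ofReal_add (by positivity) (by positivity)]
      _ ≤ ENNReal.ofReal (2 * Real.pi * 0.69) := by
          apply ENNReal.ofReal_le_ofReal
          nlinarith
  rw [← ofReal_norm] at e2
  exact (ENNReal.ofReal_le_ofReal_iff (by positivity)).mp e2

theorem G7_cau (P : CPoly) (b0 b : P.X) (lam : ℂ) (hB : BFacts P b0 b lam)
    (hPM : ST_PM) (p : Polynomial ℂ) (sg : ℝ) (hsg : sg = 1 ∨ sg = -1)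
    (hp : ∀ w, p.eval w = -(lam * (w - (P.gm b + P.gm b0) / 2)) ^ 2 -
      (sg : ℂ) * (6 * I * (lam * (w - (P.gm b + P.gm b0) / 2))))
    (F : P.X →ᵇ ℂ) (hF : ∀ x, ‖F x‖ ≤ 2)
    (hint : ∫⁻ x, ENNReal.ofReal (‖F x‖ ^ 2) ∂(P.Pm (if sg = 1 then b0 else b)) ≤
      ENNReal.ofReal (36 / 10 ^ 10)) :
    ‖P.Cau ((P.gm b + P.gm b0) / 2) (fun x => F x * Complex.exp (p.eval (P.gm x)))‖ ≤ 0.69 := by
  obtain ⟨hlam, hx1, hy1, hy2, hall⟩ := hB
  obtain ⟨z, hz⟩ : ∃ z, z = (P.gm b + P.gm b0) / 2 := ⟨_, rfl⟩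
  rw [← hz]
  rw [← hz] at hp
  have hpi := Real.pi_pos
  obtain ⟨z0, hz0⟩ : ∃ z0, z0 = lam * (P.gm b - P.gm b0) / 2 := ⟨_, rfl⟩
  have hx0 : |z0.re| ≤ 0.45 := by
    have h1 : z0.re = (lam * (P.gm b - P.gm b0)).re / 2 := by
      rw [hz0]
      simp
    rw [h1, abs_div, abs_of_pos (by norm_num : (0 : ℝ) < 2)]
    linarith
  have hy0 : z0.im = (lam * (P.gm b - P.gm b0)).im / 2 := by
    rw [hz0]
    simp
  -- the pointwise estimate
  have hpt : ∀ x : P.X,
      ‖F x‖ * (Real.exp (-(lam * (P.gm x - z)).re ^ 2 + (lam * (P.gm x - z)).im ^ 2 +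
          6 * (lam * (P.gm x - z)).im) * ‖lam * P.dr x‖) ≤
        0.94 * Real.pi * (120 * (‖F x‖ * P.ker (P.gm b0) x) + 0.6 * P.ker (P.gm b) x +
          0.04 * (P.ker (P.gm b0) x + P.ker (P.gm b) x)) ∧
      ‖F x‖ * (Real.exp (-(lam * (P.gm x - z)).re ^ 2 + (lam * (P.gm x - z)).im ^ 2 -
          6 * (lam * (P.gm x - z)).im) * ‖lam * P.dr x‖) ≤
        0.94 * Real.pi * (120 * (‖F x‖ * P.ker (P.gm b) x) + 0.6 * P.ker (P.gm b0) x +
          0.04 * (P.ker (P.gm b0) x + P.ker (P.gm b) x)) ∧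
      0.47 ≤ ‖lam * (P.gm x - z)‖ := by
    intro x
    obtain ⟨g1, g2, g3, g4⟩ := hall x
    have hd : P.dr x ≠ 0 := by
      unfold CPoly.dr CPoly.side
      exact sub_ne_zero.mpr (P.nd _ x.1.2)
    have hDpos : 0 < ‖lam * P.dr x‖ := norm_pos_iff.mpr (mul_ne_zero hlam hd)
    have q0 : lam * (P.gm x - P.gm b0) = lam * (P.gm x - z) + z0 := by
      rw [hz0, hz]; ring
    have qb : lam * (P.gm x - P.gm b) = lam * (P.gm x - z) - z0 := by
      rw [hz0, hz]; ring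
    have e0 := G7_ker lam (P.dr x) (P.gm x - P.gm b0) hlam hd
    have eb := G7_ker lam (P.dr x) (P.gm x - P.gm b) hlam hd
    have r0 : crs (lam * P.dr x) (-(lam * (P.gm x - P.gm b0))) / ‖lam * P.dr x‖ =
        ell P b0 lam x 0 := by
      unfold ell
      rw [zero_sub]
    have rb : crs (lam * P.dr x) (-(lam * (P.gm x - P.gm b))) / ‖lam * P.dr x‖ =
        ell P b0 lam x (lam * (P.gm b - P.gm b0)) := by
      unfold ell
      congr 2
      ring
    have ez : 2 * ell P b0 lam x (lam * (P.gm b - P.gm b0) / 2) =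
        ell P b0 lam x 0 + ell P b0 lam x (lam * (P.gm b - P.gm b0)) := by
      unfold ell crs
      rw [← add_div, mul_div_assoc']
      congr 1
      simp only [Complex.mul_im, Complex.mul_re, Complex.sub_im, Complex.sub_re, Complex.zero_re,
        Complex.zero_im, Complex.conj_re, Complex.conj_im, Complex.div_ofNat_re,
        Complex.div_ofNat_im]
      ring
    rw [r0] at e0
    rw [rb] at eb
    rw [q0, Complex.add_re, Complex.add_im] at e0
    rw [qb, Complex.sub_re, Complex.sub_im] at eb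
    rw [q0, Complex.add_im] at g1 g2
    rw [q0, Complex.add_im, Complex.add_re] at g4
    rw [Complex.add_re] at g2
    have key := G7_pt hx0 (by rw [hy0]; linarith) (by rw [hy0]; linarith) g1 g2 hDpos.le
      ((hPM P).2.1 b0 x) ((hPM P).2.1 b x) e0 eb ez g3 g4 (norm_nonneg (F x)) (hF x)
    refine ⟨key.1, key.2, ?_⟩
    have h1 : ell P b0 lam x (lam * (P.gm b - P.gm b0) / 2) ≤ ‖lam * (P.gm x - z)‖ := by
      unfold ell
      rw [div_le_iff₀ hDpos]
      refine (G7_crs_le _ _).trans ?_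
      rw [mul_comm]
      apply le_of_eq
      congr 1
      rw [← hz0, q0, ← norm_neg]
      congr 1
      ring
    linarith
  -- the norm of the integrand
  have hnorm : ∀ x : P.X, ‖(F x * Complex.exp (p.eval (P.gm x)) * P.dr x) •
      Ring.inverse (algebraMap ℂ ℂ (P.gm x) - z)‖ ≤
      (‖F x‖ * (Real.exp (-(lam * (P.gm x - z)).re ^ 2 + (lam * (P.gm x - z)).im ^ 2 +
        sg * (6 * (lam * (P.gm x - z)).im)) * ‖lam * P.dr x‖)) / 0.47 := by
    intro x
    have h47 := (hpt x).2.2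
    have hne : lam * (P.gm x - z) ≠ 0 := by
      rw [← norm_pos_iff]; linarith
    have hexp : ‖Complex.exp (p.eval (P.gm x))‖ =
        Real.exp (-(lam * (P.gm x - z)).re ^ 2 + (lam * (P.gm x - z)).im ^ 2 +
        sg * (6 * (lam * (P.gm x - z)).im)) := by
      rw [Complex.norm_exp, hp]
      congr 1
      generalize lam * (P.gm x - z) = ζ
      simp only [Complex.sub_re, Complex.neg_re, pow_two, Complex.mul_re, Complex.mul_im,
        Complex.ofReal_re, Complex.ofReal_im, Complex.I_re, Complex.I_im, Complex.re_ofNat,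
        Complex.im_ofNat]
      ring
    rw [Algebra.algebraMap_self_apply, Ring.inverse_eq_inv', norm_smul, norm_mul, norm_mul,
      hexp, norm_inv]
    have h1 : ‖P.dr x‖ * ‖P.gm x - z‖⁻¹ = ‖lam * P.dr x‖ / ‖lam * (P.gm x - z)‖ := by
      rw [norm_mul, norm_mul, mul_div_mul_left _ _ (norm_ne_zero_iff.mpr hlam)]
      rfl
    have h2 : ‖lam * P.dr x‖ / ‖lam * (P.gm x - z)‖ ≤ ‖lam * P.dr x‖ / 0.47 :=
      div_le_div_of_nonneg_left (norm_nonneg _) (by norm_num) h47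
    rw [mul_assoc, h1, mul_assoc, mul_div_assoc, mul_div_assoc]
    apply mul_le_mul_of_nonneg_left _ (norm_nonneg _)
    exact mul_le_mul_of_nonneg_left h2 (Real.exp_pos _).le
  have hm0 := G7_mass P ((hPM P).2.2 b0)
  have hmb := G7_mass P ((hPM P).2.2 b)
  have hFm : Measurable (fun x => ‖F x‖) := F.continuous.norm.measurable
  have hI : ‖∫ x, (F x * Complex.exp (p.eval (P.gm x)) * P.dr x) •
      Ring.inverse (algebraMap ℂ ℂ (P.gm x) - z) ∂P.ds‖ ≤ 2 * Real.pi * 0.69 := by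
    rcases hsg with rfl | rfl
    · rw [if_pos rfl, G7_lint P hFm] at hint
      apply G7_int P.ds hFm (G7_meas_ker P (P.gm b0))
        (G7_meas_ker P (P.gm b)) ((hPM P).2.1 b0) ((hPM P).2.1 b) hm0 hmb hint
      intro x
      refine (hnorm x).trans ?_
      rw [div_le_iff₀ (by norm_num), one_mul]
      refine (hpt x).1.trans (le_of_eq ?_)
      ring
    · rw [if_neg (by norm_num), G7_lint P hFm] at hint
      apply G7_int P.ds hFm (G7_meas_ker P (P.gm b))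
        (G7_meas_ker P (P.gm b0)) ((hPM P).2.1 b) ((hPM P).2.1 b0) hmb hm0 hint
      intro x
      refine (hnorm x).trans ?_
      rw [div_le_iff₀ (by norm_num), neg_one_mul, ← sub_eq_add_neg]
      refine (hpt x).2.1.trans (le_of_eq ?_)
      ring
  unfold CPoly.Cau
  rw [norm_smul, norm_inv]
  have h2pi : ‖(2 * Real.pi * I : ℂ)‖ = 2 * Real.pi := by
    rw [norm_mul, norm_mul, Complex.norm_I, mul_one, Complex.norm_real, Real.norm_eq_abs,
      abs_of_pos hpi]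
    norm_num
  rw [h2pi, inv_mul_le_iff₀ (by positivity)]
  exact hI

theorem st_G7 : ST_G7 := by
  intro hWT hPM P b0 b lam hB f hf hf1 c hc1 hc2 hi0 hib
  obtain ⟨z, hz⟩ : ∃ z, z = (P.gm b + P.gm b0) / 2 := ⟨_, rfl⟩
  have hlam := hB.1
  have hall := hB.2.2.2.2
  -- `z` is an interior point
  have hInt : P.Int z := by
    intro j hj
    let x : P.X := (⟨j, hj⟩, ⟨1 / 2, by norm_num, by norm_num⟩)
    have h1 := (hall x).2.2.1
    have hdr : P.dr x = P.side j := rfl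
    have hgm : P.gm x = P.v j + (1 / 2 : ℂ) * P.side j := by
      unfold CPoly.gm
      change P.v j + (((1 / 2 : ℝ) : ℝ) : ℂ) * P.side j = _
      push_cast
      rfl
    have hd : P.side j ≠ 0 := sub_ne_zero.mpr (P.nd j hj)
    have hDpos : 0 < ‖lam * P.side j‖ := norm_pos_iff.mpr (mul_ne_zero hlam hd)
    unfold ell at h1
    rw [hdr, le_div_iff₀ hDpos] at h1
    have h2 : lam * (P.gm b - P.gm b0) / 2 - lam * (P.gm x - P.gm b0) =
        lam * (z - P.v j - (1 / 2 : ℂ) * P.side j) := by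
      rw [hz, hgm]; ring
    rw [h2] at h1
    have h3 : crs (lam * P.side j) (lam * (z - P.v j - (1 / 2 : ℂ) * P.side j)) =
        (lam.re ^ 2 + lam.im ^ 2) * crs (P.side j) (z - P.v j) := by
      unfold crs
      generalize z - P.v j = u
      generalize P.side j = w
      have h4 : ((1 / 2 : ℂ) * w).re = w.re / 2 := by
        rw [Complex.mul_re]; norm_num; ring
      have h5 : ((1 / 2 : ℂ) * w).im = w.im / 2 := by
        rw [Complex.mul_im]; norm_num; ring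
      simp only [Complex.mul_im, Complex.mul_re, Complex.sub_im, Complex.sub_re,
        Complex.conj_re, Complex.conj_im] at h4 h5 ⊢
      rw [h4, h5]
      ring
    rw [h3] at h1
    have h6 : 0 < (lam.re ^ 2 + lam.im ^ 2) * crs (P.side j) (z - P.v j) :=
      lt_of_lt_of_le (by positivity) h1
    by_contra hcon
    rw [not_lt] at hcon
    have h7 : (lam.re ^ 2 + lam.im ^ 2) * crs (P.side j) (z - P.v j) ≤ 0 :=
      mul_nonpos_of_nonneg_of_nonpos (by positivity) hcon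
    linarith
  -- the two functions
  have h1mem : (1 : P.X →ᵇ ℂ) ∈ P.Alg := P.Alg.one_mem
  obtain ⟨F1, hF1⟩ : ∃ F1 : P.X →ᵇ ℂ, F1 = f + (-c) • (1 : P.X →ᵇ ℂ) := ⟨_, rfl⟩
  obtain ⟨F2, hF2⟩ : ∃ F2 : P.X →ᵇ ℂ, F2 = f + c • (1 : P.X →ᵇ ℂ) := ⟨_, rfl⟩
  have hF1m : F1 ∈ P.Alg := by
    rw [hF1]; exact P.Alg.add_mem hf (P.Alg.smul_mem h1mem _)
  have hF2m : F2 ∈ P.Alg := by
    rw [hF2]; exact P.Alg.add_mem hf (P.Alg.smul_mem h1mem _)
  have hF1x : ∀ x, F1 x = f x - c := by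
    intro x
    rw [hF1]
    simp [sub_eq_add_neg]
  have hF2x : ∀ x, F2 x = f x + c := by
    intro x
    rw [hF2]
    simp
  have hfx : ∀ x, ‖f x‖ ≤ 1 := fun x => (f.norm_coe_le_norm x).trans hf1
  have hF1n : ∀ x, ‖F1 x‖ ≤ 2 := by
    intro x
    rw [hF1x]
    have := norm_sub_le (f x) c
    linarith [hfx x]
  have hF2n : ∀ x, ‖F2 x‖ ≤ 2 := by
    intro x
    rw [hF2x]
    have := norm_add_le (f x) c
    linarith [hfx x]
  -- the weights
  let ζ : Polynomial ℂ := Polynomial.C lam * (Polynomial.X - Polynomial.C z)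
  let pp : ℝ → Polynomial ℂ := fun sg => -ζ ^ 2 - Polynomial.C (sg : ℂ) * (Polynomial.C (6 * I) * ζ)
  have hpp : ∀ (sg : ℝ) (w : ℂ), (pp sg).eval w = -(lam * (w - z)) ^ 2 -
      (sg : ℂ) * (6 * I * (lam * (w - z))) := by
    intro sg w
    simp [pp, ζ]
  have hppz : ∀ sg : ℝ, (pp sg).eval z = 0 := by
    intro sg
    rw [hpp]
    simp
  have w1 := hWT P z hInt F1 hF1m (1 : P.X →ᵇ ℂ) h1mem (pp 1) (hppz 1) 0
  have w2 := hWT P z hInt F2 hF2m (1 : P.X →ᵇ ℂ) h1mem (pp (-1)) (hppz (-1)) 0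
  have w3 := hWT P z hInt f hf (1 : P.X →ᵇ ℂ) h1mem (pp 1) (hppz 1) (-c)
  have w4 := hWT P z hInt f hf (1 : P.X →ᵇ ℂ) h1mem (pp 1) (hppz 1) c
  have hone : P.Cau z (1 : P.X →ᵇ ℂ) = 1 := w1.2.2
  have c1 : P.Cau z F1 = P.Cau z f - c := by
    have e1 : (F1 : P.X → ℂ) = fun x => f x + (-c) * (1 : P.X →ᵇ ℂ) x := by
      funext x
      rw [hF1x]
      simp [sub_eq_add_neg]
    rw [e1, w3.2.1, hone]
    ring
  have c2 : P.Cau z F2 = P.Cau z f + c := by
    have e1 : (F2 : P.X → ℂ) = fun x => f x + c * (1 : P.X →ᵇ ℂ) x := by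
      funext x
      rw [hF2x]
      simp
    rw [e1, w4.2.1, hone]
    ring
  have n1 : ‖P.Cau z F1‖ ≤ 0.69 := by
    rw [← w1.1, hz]
    apply G7_cau P b0 b lam hB hPM (pp 1) 1 (Or.inl rfl) (by rw [← hz]; exact hpp 1) F1 hF1n
    rw [if_pos rfl]
    have e1 : (fun x => ENNReal.ofReal (‖F1 x‖ ^ 2)) =
        fun x => ENNReal.ofReal (‖f x - c‖ ^ 2) := by
      funext x
      rw [hF1x]
    rw [e1]
    refine hi0.trans (ENNReal.ofReal_le_ofReal ?_)
    unfold eps0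
    norm_num
  have n2 : ‖P.Cau z F2‖ ≤ 0.69 := by
    rw [← w2.1, hz]
    apply G7_cau P b0 b lam hB hPM (pp (-1)) (-1) (Or.inr rfl) (by rw [← hz]; exact hpp (-1)) F2
      hF2n
    rw [if_neg (by norm_num)]
    have e1 : (fun x => ENNReal.ofReal (‖F2 x‖ ^ 2)) =
        fun x => ENNReal.ofReal (‖f x + c‖ ^ 2) := by
      funext x
      rw [hF2x]
    rw [e1]
    refine hib.trans (ENNReal.ofReal_le_ofReal ?_)
    unfold eps0
    norm_num
  have h2c : 2 * c = P.Cau z F2 - P.Cau z F1 := by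
    rw [c1, c2]; ring
  have h3 : ‖2 * c‖ ≤ 0.69 + 0.69 := by
    rw [h2c]
    exact (norm_sub_le _ _).trans (add_le_add n2 n1)
  rw [norm_mul] at h3
  have h4 : ‖(2 : ℂ)‖ = 2 := by norm_num
  rw [h4] at h3
  unfold eps0 at hc1
  linarith

end Pool.Agent.Helper99.CP
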